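import Pool.Agent.Lib.MP_571595_lc.MORT.Base

/-!
# Computability of the reduction
-/

set_option autoImplicit false

namespace Pool.Agent.Lib.MP_571595_lc.MORT.H21

open Encodable

theorem encode_int_ofNat (n : ℕ) : encode (n : ℤ) = 2 * n := by
  show Equiv.intEquivNat (Int.ofNat n) = 2 * n
  rfl

theorem encode_int_negSucc (n : ℕ) : encode (Int.negSucc n) = 2 * n + 1 := by
  show Equiv.intEquivNat (Int.negSucc n) = 2 * n + 1
  rfl

theorem sub_primrec : Primrec₂ fun X Y : ℕ => (X : ℤ) - Y := by
  refine Primrec.encode_iff.1 ?_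
  have h : Primrec fun p : ℕ × ℕ => if p.2 ≤ p.1 then 2 * (p.1 - p.2) else 2 * (p.2 - p.1 - 1) + 1 := by
    refine Primrec.ite (Primrec.nat_le.comp Primrec.snd Primrec.fst) ?_ ?_
    · exact Primrec.nat_mul.comp (Primrec.const 2) (Primrec.nat_sub.comp Primrec.fst Primrec.snd)
    · exact Primrec.succ.comp (Primrec.nat_mul.comp (Primrec.const 2)
        (Primrec.nat_sub.comp (Primrec.nat_sub.comp Primrec.snd Primrec.fst) (Primrec.const 1)))
  refine h.of_eq fun p => ?_
  obtain ⟨X, Y⟩ := p
  simp only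
  split_ifs with h1
  · have h2 : (X : ℤ) - Y = ((X - Y : ℕ) : ℤ) := by omega
    rw [h2, encode_int_ofNat]
  · have h2 : (X : ℤ) - Y = Int.negSucc (Y - X - 1) := by
      rw [Int.negSucc_eq]
      omega
    rw [h2, encode_int_negSucc]

theorem pow_primrec (α : ℕ) : Primrec fun N : ℕ => α ^ N := by
  have h : Primrec fun N : ℕ => Nat.rec (motive := fun _ => ℕ) 1 (fun _ m => m * α) N :=
    Primrec.nat_rec' Primrec.id (Primrec.const 1)
      (Primrec.nat_mul.comp (Primrec.snd.comp Primrec.snd) (Primrec.const α)).to₂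
  refine h.of_eq fun N => ?_
  induction N with
  | zero => rfl
  | succ N ih => simp only [pow_succ]; rw [← ih]

theorem lin_primrec (α β : ℕ) (a b : ℤ) :
    Primrec fun N : ℕ => a * (α : ℤ) ^ N + b * (β : ℤ) ^ N := by
  have h : Primrec fun N : ℕ => ((a.toNat * α ^ N + b.toNat * β ^ N : ℕ) : ℤ) -
      (((-a).toNat * α ^ N + (-b).toNat * β ^ N : ℕ) : ℤ) :=
    sub_primrec.comp
      (Primrec.nat_add.comp (Primrec.nat_mul.comp (Primrec.const _) (pow_primrec α))
        (Primrec.nat_mul.comp (Primrec.const _) (pow_primrec β)))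
      (Primrec.nat_add.comp (Primrec.nat_mul.comp (Primrec.const _) (pow_primrec α))
        (Primrec.nat_mul.comp (Primrec.const _) (pow_primrec β)))
  refine h.of_eq fun N => ?_
  have ha : a = (a.toNat : ℤ) - ((-a).toNat : ℤ) := by omega
  have hb : b = (b.toNat : ℤ) - ((-b).toNat : ℤ) := by omega
  push_cast
  generalize (a.toNat : ℤ) = a₁ at *
  generalize ((-a).toNat : ℤ) = a₂ at *
  generalize (b.toNat : ℤ) = b₁ at *
  generalize ((-b).toNat : ℤ) = b₂ at *
  rw [ha, hb]
  ring

/-- COMP -/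
theorem comp : CompStatement := by
  intro L α β A B N hN
  have h : Primrec fun N : ℕ => L ++ [lastM α β A B N] := by
    refine Primrec.list_append.comp (Primrec.const L) ?_
    refine Primrec.list_cons.comp ?_ (Primrec.const [])
    exact (lin_primrec α β _ _).pair ((lin_primrec α β _ _).pair
      ((lin_primrec α β _ _).pair (lin_primrec α β _ _)))
  exact h.to_comp.comp hN

end Pool.Agent.Lib.MP_571595_lc.MORT.H21
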