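import Pool.Agent.Lib.MP_571595_lc.MORT.Base

/-!
# The final assembly
-/

set_option autoImplicit false

namespace Pool.Agent.Lib.MP_571595_lc.MORT.H21

open Nat.Partrec (Code)

/-- a partial recursive function on the natural numbers whose domain is not computable -/
theorem exists_undecidable : ∃ f : ℕ →. ℕ, Partrec f ∧ ¬ ComputablePred fun n => (f n).Dom := by
  refine ⟨fun n => Code.eval (Denumerable.ofNat Code n) 0, ?_, ?_⟩
  · exact Code.eval_part.comp (Computable.ofNat Code) (Computable.const 0)
  · intro h
    apply ComputablePred.halting_problem 0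
    have h1 : (fun c : Code => (Code.eval c 0).Dom) =
        fun c : Code => (Code.eval (Denumerable.ofNat Code (Encodable.encode c)) 0).Dom := by
      funext c
      rw [Denumerable.ofNat_encode]
    rw [h1]
    obtain ⟨f, hf, hf'⟩ := ComputablePred.computable_iff.1 h
    refine ComputablePred.computable_iff.2 ⟨fun c => f (Encodable.encode c),
      hf.comp Computable.encode, ?_⟩
    funext c
    exact congrFun hf' (Encodable.encode c)

/-- FINAL -/
theorem final (h1 : HitStatement) (h2 : DataStatement) (h3 : MachStatement)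
    (h4 : RedStatement) (h5 : CompStatement) : FinalStatement := by
  intro h
  obtain ⟨f, hf, hf'⟩ := exists_undecidable
  obtain ⟨Q, R, hQ, hR, C, N, hN, hC⟩ := h3 f hf
  obtain ⟨D⟩ := h2 C
  obtain ⟨L, α, β, A, B, hL⟩ := h4 C D
  apply hf'
  obtain ⟨g, hg, hg'⟩ := ComputablePred.computable_iff.1 h
  refine ComputablePred.computable_iff.2 ⟨fun n => g (L ++ [lastM α β A B (N n)]),
    hg.comp (h5 L α β A B N hN), ?_⟩
  funext n
  have e1 := congrFun hg' (L ++ [lastM α β A B (N n)])
  rw [← e1, hC n, eq_iff_iff, hL (N n), h1 C D]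

end Pool.Agent.Lib.MP_571595_lc.MORT.H21
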