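import Pool.Agent.Lib.MP_571595_lc.MORT.H21.Val

/-!
# Lemma N and the recursion formulas
-/

set_option autoImplicit false

namespace Pool.Agent.Lib.MP_571595_lc.MORT.H21

variable {J Q R : Type} [Fintype J] [DecidableEq J] {C : CM J Q R} (D : Data C)

/-- unmatched words -/
def Unm (C : CM J Q R) (l : Bool) (a : St Q R) (w : List (Tr J Q R)) : Prop :=
  w = [] ∨ ∃ τ w', w = τ :: w' ∧ srcS C l τ ≠ a

/-- precise form of the third alternative -/
def ShJ' (c0 : J → ℕ) (l : Bool) (a : St Q R) (w : List (Tr J Q R)) : Prop :=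
  ∃ n : J → ℕ, (∀ i, D.v i (D.ze c0 l a w) = -D.ek a + epsS l * D.v i (D.rho (toZ n) : ℚ)) ∧
    (n = 0 → Unm C l a w)

/-- the claim -/
def Cl (c0 : J → ℕ) (l : Bool) (a : St Q R) (w : List (Tr J Q R)) : Prop :=
  D.ze c0 l a w ≠ 0 ∧ D.Cm a • D.X c0 l w = pt a.ty (D.ze c0 l a w) ∧
    (D.ShG c0 l a w ∨ D.ShE c0 l a w ∨ ShJ' D c0 l a w)

theorem v_rz (i : J ⊕ J) (z : J → ℤ) (l : Bool) : D.v i ((D.rho z : ℚ) ^ epsS l) =
    epsS l * D.v i (D.rho z : ℚ) := v_zpow D i _ _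

/-- valuations in all cases -/
theorem Cl.val {c0 : J → ℕ} {l : Bool} {a : St Q R} {w : List (Tr J Q R)}
    (h : D.ShG c0 l a w ∨ D.ShE c0 l a w ∨ ShJ' D c0 l a w) :
    (∃ n : J → ℕ, ∀ i, D.v i (D.ze c0 l a w) =
      -D.eo l a.ty + epsS l * D.v i (D.rho (toZ n) : ℚ)) ∨ ShJ' D c0 l a w := by
  rcases h with ⟨n, τ, w', _, _, _, _, _, _, _, h⟩ | ⟨n, _, rfl, h⟩ | h
  · exact Or.inl ⟨n, h⟩
  · obtain ⟨m, hm⟩ := v_ec D c0 l
    refine Or.inl ⟨n + m, fun i => ?_⟩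
    rw [h, v_mul D i (zpow_ne_zero _ (rho_ne D _)) (ec_ne D c0 l), v_rz, hm, ae_ty, toZ_add,
      D.rho_add, Units.val_mul, v_mul D i (rho_ne D _) (rho_ne D _)]
    ring
  · exact Or.inr h

theorem eps_cases (l : Bool) : epsS l = 1 ∨ epsS l = -1 := by
  cases l <;> simp [epsS]

theorem eps_dvd (i : J ⊕ J) (z : J → ℤ) (l : Bool) :
    ∃ k, epsS l * D.v i (D.rho z : ℚ) = D.M * k := by
  obtain ⟨k, hk⟩ := v_rho_dvd D i z
  exact ⟨epsS l * k, by rw [hk]; ring⟩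

/-- the valuation is different from that of the next mark -/
theorem val_ne_out {c0 : J → ℕ} {l : Bool} {b : St Q R} {w : List (Tr J Q R)} {T : Ty}
    (hT : b.ty = T.op)
    (h : D.ShG c0 l b w ∨ D.ShE c0 l b w ∨ ShJ' D c0 l b w) (i : J ⊕ J) :
    D.v i (D.ze c0 l b w) ≠ -D.eo l T := by
  rcases Cl.val D h with ⟨n, hn⟩ | ⟨n, hn, _⟩
  · obtain ⟨k, hk⟩ := eps_dvd D i (toZ n) l
    rw [hn, hk, hT]
    have := ne_mod (eo_ge D l T.op) (eo_lt D l T.op) (eo_ge D l T) (eo_lt D l T)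
      (eo_ne_op D l T) k 0
    simpa using this
  · obtain ⟨k, hk⟩ := eps_dvd D i (toZ n) l
    rw [hn, hk]
    have := ne_mod (ek_ge D b) (D.ek_lt b) (eo_ge D l T) (eo_lt D l T)
      (eo_ne_ek D l T b).symm k 0
    simpa using this

/-- the valuation is different from that of the entry colour, if the word is matched -/
theorem val_ne_ek {c0 : J → ℕ} {l : Bool} {b : St Q R} {w : List (Tr J Q R)}
    (h : D.ShG c0 l b w ∨ D.ShE c0 l b w ∨ ShJ' D c0 l b w) (hm : ¬ Unm C l b w) (i : J ⊕ J) :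
    D.v i (D.ze c0 l b w) ≠ -D.ek b := by
  rcases Cl.val D h with ⟨n, hn⟩ | ⟨n, hn, h0⟩
  · obtain ⟨k, hk⟩ := eps_dvd D i (toZ n) l
    rw [hn, hk]
    have := ne_mod (eo_ge D l b.ty) (eo_lt D l b.ty) (ek_ge D b) (D.ek_lt b)
      (eo_ne_ek D l b.ty b) k 0
    simpa using this
  · have hn0 : n ≠ 0 := fun h => hm (h0 h)
    have h1 := v_rho_ne_zero D hn0 i
    rw [hn]
    rcases eps_cases l with h2 | h2 <;> rw [h2] <;> intro h3 <;> apply h1 <;> linarith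

/-- the gate computation -/
theorem gate_val {l : Bool} (τ : Tr J Q R) (hτ : τ.trav = none) {x : ℚ} (hx : x ≠ 0) {T : Ty}
    (hT : T = (srcS C l τ).ty) (h : ∀ i, D.v i x ≠ -D.eo l T) [Nonempty J] :
    sgnS C l τ * D.out l T + x ≠ 0 ∧
      sgnS C l τ * D.out l T +
        ((D.rho (τ.z C) : ℚ) * (sgnS C l τ * D.out l T + x))⁻¹ ≠ 0 ∧
      ∀ i, D.v i (sgnS C l τ * D.out l T +
        ((D.rho (τ.z C) : ℚ) * (sgnS C l τ * D.out l T + x))⁻¹) = -D.eo l T := by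
  have h1 : ∀ i, sgnS C l τ * D.out l T + x ≠ 0 ∧ D.v i (sgnS C l τ * D.out l T + x) =
      min (D.v i (sgnS C l τ * D.out l T)) (D.v i x) := fun i =>
    v_add D i (sgn_out_ne D l T τ) hx (by rw [v_sgn_out]; exact (h i).symm)
  have hy : sgnS C l τ * D.out l T + x ≠ 0 := by
    obtain ⟨j⟩ := ‹Nonempty J›
    exact (h1 (.inl j)).1
  have h2 : ∀ i, -D.eo l T <
      D.v i ((D.rho (τ.z C) : ℚ) * (sgnS C l τ * D.out l T + x))⁻¹ := by
    intro i
    rw [v_inv, v_mul D i (rho_ne D _) hy, (h1 i).2, v_sgn_out]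
    have h3 := gate_lt D l τ hτ i
    rw [← hT] at h3
    have h4 : min (-D.eo l T) (D.v i x) ≤ -D.eo l T := min_le_left _ _
    linarith
  have hz : ((D.rho (τ.z C) : ℚ) * (sgnS C l τ * D.out l T + x))⁻¹ ≠ 0 :=
    inv_ne_zero (mul_ne_zero (rho_ne D _) hy)
  have h5 : ∀ i, _ := fun i => v_add D i (sgn_out_ne D l T τ) hz
    (by rw [v_sgn_out]; exact (h2 i).ne)
  refine ⟨hy, ?_, fun i => ?_⟩
  · obtain ⟨j⟩ := ‹Nonempty J›
    exact (h5 (.inl j)).1
  · rw [(h5 i).2, v_sgn_out, min_eq_left (h2 i).le]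

theorem X_cons (c0 : J → ℕ) (l : Bool) (τ : Tr J Q R) (w : List (Tr J Q R)) :
    D.Cm (srcS C l τ) • D.X c0 l (τ :: w) = D.lab l τ • (D.Cm (tgtS C l τ) • D.X c0 l w) := by
  simp only [Data.X, List.map_cons, List.prod_cons, Data.Mt, mul_smul, smul_inv_smul]

/-- travel formula -/
theorem ze_trav (h1 : MobStatement) (h2 : SysStatement) (c0 : J → ℕ) (l : Bool) (τ : Tr J Q R)
    (j : J) (w : List (Tr J Q R)) (hτ : τ.trav = some j)
    (h0 : D.ze c0 l (srcS C l τ) w ≠ 0)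
    (hp : D.Cm (srcS C l τ) • D.X c0 l w = pt (srcS C l τ).ty (D.ze c0 l (srcS C l τ) w)) :
    D.Cm (srcS C l τ) • D.X c0 l (τ :: w) = pt (srcS C l τ).ty
      ((D.rho (Pi.single j 1) : ℚ) ^ epsS l * D.ze c0 l (srcS C l τ) w) ∧
    D.ze c0 l (srcS C l τ) (τ :: w) =
      (D.rho (Pi.single j 1) : ℚ) ^ epsS l * D.ze c0 l (srcS C l τ) w := by
  have h3 : D.Cm (srcS C l τ) • D.X c0 l (τ :: w) = pt (srcS C l τ).ty
      ((D.rho (Pi.single j 1) : ℚ) ^ epsS l * D.ze c0 l (srcS C l τ) w) := by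
    rw [X_cons, h2.trav_tgt C l τ j hτ, hp, h2.trav_act C D l τ j _ hτ h0]
  refine ⟨h3, ?_⟩
  rw [Data.ze, h3, h1.coord_pt]

/-- gate formula -/
theorem ze_gate (h1 : MobStatement) (h2 : SysStatement) [Nonempty J] (c0 : J → ℕ) (l : Bool)
    (τ : Tr J Q R) (w : List (Tr J Q R)) (hτ : τ.trav = none)
    (h0 : Cl D c0 l (tgtS C l τ) w) :
    D.Cm (srcS C l τ) • D.X c0 l (τ :: w) = pt (srcS C l τ).ty
      (D.ze c0 l (srcS C l τ) (τ :: w)) ∧
    D.ze c0 l (srcS C l τ) (τ :: w) = sgnS C l τ * D.out l (srcS C l τ).ty +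
      ((D.rho (τ.z C) : ℚ) *
        (sgnS C l τ * D.out l (srcS C l τ).ty + D.ze c0 l (tgtS C l τ) w))⁻¹ ∧
    sgnS C l τ * D.out l (srcS C l τ).ty + D.ze c0 l (tgtS C l τ) w ≠ 0 ∧
    D.ze c0 l (srcS C l τ) (τ :: w) ≠ 0 ∧
    ∀ i, D.v i (D.ze c0 l (srcS C l τ) (τ :: w)) = -D.eo l (srcS C l τ).ty := by
  obtain ⟨hz, hp, hs⟩ := h0
  obtain ⟨g1, g2, g3⟩ := gate_val D τ hτ hz rfl (val_ne_out D (h2.gate_ty C l τ hτ) hs)
  have h3 := X_cons D c0 l τ w
  rw [hp, h2.gate_act C D l τ _ hτ hz g1 g2] at h3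
  have h4 : D.ze c0 l (srcS C l τ) (τ :: w) = sgnS C l τ * D.out l (srcS C l τ).ty +
      ((D.rho (τ.z C) : ℚ) *
        (sgnS C l τ * D.out l (srcS C l τ).ty + D.ze c0 l (tgtS C l τ) w))⁻¹ := by
    rw [Data.ze, h3, h1.coord_pt]
  rw [← h4] at h3 g2 g3
  exact ⟨h3, h4, g1, g2, g3⟩

theorem allowed_zero (C : CM J Q R) (a : St Q R) : Allowed C a 0 := by
  cases a <;> simp [Allowed]

theorem allowed_add {l : Bool} {τ : Tr J Q R} {j : J} (hok : τ.ok C) (hτ : τ.trav = some j)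
    {n : J → ℕ} (hn : Allowed C (srcS C l τ) n) :
    Allowed C (srcS C l τ) (Pi.single j 1 + n) := by
  cases τ with
  | tL r j' =>
    simp only [Tr.trav, Option.some.injEq] at hτ
    subst hτ
    have h1 : srcS C l (Tr.tL r j' : Tr J Q R) = .L r := by cases l <;> rfl
    rw [h1] at hn ⊢
    intro i hi
    have hne : i ≠ j' := by rintro rfl; exact hok hi
    simp [hne, hn i hi]
  | tU q j' =>
    have h1 : srcS C l (Tr.tU q j' : Tr J Q R) = .U q := by cases l <;> rfl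
    rw [h1]; trivial
  | aU j' =>
    have h1 : srcS C l (Tr.aU j' : Tr J Q R) = .AU := by cases l <;> rfl
    rw [h1]; trivial
  | aL j' =>
    have h1 : srcS C l (Tr.aL j' : Tr J Q R) = .AL := by cases l <;> rfl
    rw [h1]; trivial
  | gU r => simp [Tr.trav] at hτ
  | gL r => simp [Tr.trav] at hτ
  | g0 => simp [Tr.trav] at hτ
  | aG => simp [Tr.trav] at hτ
  | aH => simp [Tr.trav] at hτ

theorem single_add_ne (j : J) (n : J → ℕ) : Pi.single j 1 + n ≠ 0 := by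
  intro h
  have := congrFun h j
  simp at this

theorem rho_single_add (j : J) (n : J → ℕ) (l : Bool) :
    (D.rho (toZ (Pi.single j 1 + n)) : ℚ) ^ epsS l =
      (D.rho (Pi.single j 1) : ℚ) ^ epsS l * (D.rho (toZ n) : ℚ) ^ epsS l := by
  rw [toZ_add, toZ_single, D.rho_add, Units.val_mul, mul_zpow]

theorem v_single_add (i : J ⊕ J) (j : J) (n : J → ℕ) (l : Bool) :
    epsS l * D.v i (D.rho (toZ (Pi.single j 1 + n)) : ℚ) =
      D.v i ((D.rho (Pi.single j 1) : ℚ) ^ epsS l) + epsS l * D.v i (D.rho (toZ n) : ℚ) := by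
  rw [← v_rz, ← v_rz, rho_single_add,
    v_mul D i (zpow_ne_zero _ (rho_ne D _)) (zpow_ne_zero _ (rho_ne D _))]

/-- the unmatched case -/
theorem junk (h1 : MobStatement) (h3 : JuncStatement) [Nonempty J] (c0 : J → ℕ) (l : Bool)
    (a b : St Q R) (w : List (Tr J Q R)) (x : ℚ) (hab : a ≠ b) (hx : x ≠ 0)
    (hp : D.Cm b • D.X c0 l w = pt b.ty x) (hv : ∀ i, D.v i x ≠ -D.ek b)
    (hu : Unm C l a w) : Cl D c0 l a w := by
  obtain ⟨z, hz, h4, h5⟩ := h3 C D a b x hab hx hv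
  rw [← hp, inv_smul_smul] at h4
  have h6 : D.ze c0 l a w = z := by rw [Data.ze, h4, h1.coord_pt]
  refine ⟨by rwa [h6], by rw [h6]; exact h4, Or.inr (Or.inr ⟨0, fun i => ?_, fun _ => hu⟩)⟩
  rw [h6, h5, toZ_zero, rho_zero, Units.val_one, v_one, mul_zero, add_zero]

/-- the claim holds -/
theorem cl (h1 : MobStatement) (h2 : SysStatement) (h3 : JuncStatement) [Nonempty J]
    (c0 : J → ℕ) (l : Bool) (w : List (Tr J Q R)) (hw : OkW C w) : ∀ a, Cl D c0 l a w := by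
  induction w with
  | nil =>
    have hp : D.Cm (aeS l) • D.X c0 l [] = pt (aeS l : St Q R).ty (D.ec c0 l) := by
      simp only [Data.X, List.map_nil, List.prod_nil, one_smul, Data.pe, smul_inv_smul, ae_ty]
    intro a
    by_cases ha : a = aeS l
    · subst ha
      have h4 : D.ze c0 l (aeS l) [] = D.ec c0 l := by rw [Data.ze, hp, h1.coord_pt]
      refine ⟨by rw [h4]; exact ec_ne D c0 l, by rw [h4]; exact hp, Or.inr (Or.inl
        ⟨0, allowed_zero C _, rfl, ?_⟩)⟩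
      rw [toZ_zero, rho_zero, Units.val_one, one_zpow, one_mul, h4]
    · refine junk D h1 h3 c0 l a (aeS l) [] (D.ec c0 l) ha (ec_ne D c0 l) hp (fun i => ?_)
        (Or.inl rfl)
      obtain ⟨m, hm⟩ := v_ec D c0 l
      obtain ⟨k, hk⟩ := eps_dvd D i (toZ m) l
      rw [hm, hk]
      have := ne_mod (eo_ge D l .L) (eo_lt D l .L) (ek_ge D (aeS l)) (D.ek_lt (aeS l))
        (eo_ne_ek D l .L (aeS l)) k 0
      simpa using this
  | cons τ w ih =>
    have hok : τ.ok C := hw τ (by simp)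
    have hw' : OkW C w := fun x hx => hw x (by simp [hx])
    have ih := ih hw'
    have hmt : Cl D c0 l (srcS C l τ) (τ :: w) := by
      rcases hτ : τ.trav with _ | j
      · obtain ⟨g1, g2, g3, g4, g5⟩ := ze_gate D h1 h2 c0 l τ w hτ (ih _)
        refine ⟨g4, g1, Or.inl ⟨0, τ, w, allowed_zero C _, hτ, rfl, hw', by simp, g3, ?_, ?_⟩⟩
        · rw [toZ_zero, rho_zero, Units.val_one, one_zpow, one_mul]; exact g2
        · intro i
          rw [g5, toZ_zero, rho_zero, Units.val_one, v_one, mul_zero, add_zero]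
      · obtain ⟨c1, c2, c3⟩ := ih (srcS C l τ)
        obtain ⟨t1, t2⟩ := ze_trav D h1 h2 c0 l τ j w hτ c1 c2
        have hr0 : (D.rho (Pi.single j 1) : ℚ) ^ epsS l ≠ 0 := zpow_ne_zero _ (rho_ne D _)
        refine ⟨by rw [t2]; exact mul_ne_zero hr0 c1, by rw [t2]; exact t1, ?_⟩
        rcases c3 with ⟨n, τ', w', ha, e1, e2, e3, e4, e5, e6, e7⟩ | ⟨n, ha, e1, e2⟩ | ⟨n, e1, _⟩
        · refine Or.inl ⟨Pi.single j 1 + n, τ', w', allowed_add hok hτ ha, e1, e2, e3,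
            by simp only [List.length_cons]; omega, e5, ?_, fun i => ?_⟩
          · rw [t2, rho_single_add, mul_assoc, ← e6]
          · rw [t2, v_mul D i hr0 c1, e7, v_single_add]; ring
        · refine Or.inr (Or.inl ⟨Pi.single j 1 + n, allowed_add hok hτ ha, e1, ?_⟩)
          rw [t2, rho_single_add, mul_assoc, ← e2]
        · refine Or.inr (Or.inr ⟨Pi.single j 1 + n, fun i => ?_, fun h =>
            absurd h (single_add_ne j n)⟩)
          rw [t2, v_mul D i hr0 c1, e1, v_single_add]; ring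
    intro a
    by_cases ha : a = srcS C l τ
    · rw [ha]; exact hmt
    · obtain ⟨c1, c2, c3⟩ := hmt
      refine junk D h1 h3 c0 l a (srcS C l τ) (τ :: w) _ ha c1 c2 (fun i => ?_)
        (Or.inr ⟨τ, w, rfl, fun h => ha h.symm⟩)
      refine val_ne_ek D c3 ?_ i
      rintro (h | ⟨τ', w', h, h'⟩)
      · simp at h
      · simp only [List.cons.injEq] at h
        exact h' (by rw [← h.1])

/-- Lemma N and the recursion formulas -/
theorem norm (h1 : MobStatement) (h2 : SysStatement) (h3 : JuncStatement) :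
    NormStatement ∧ RecStatement := by
  refine ⟨?_, ?_, ?_, ?_⟩
  · intro J Q R _ _ _ C D c0 l a w hw
    obtain ⟨c1, c2, c3⟩ := cl D h1 h2 h3 c0 l w hw a
    refine ⟨c1, c2, ?_⟩
    rcases c3 with h | h | ⟨n, h, _⟩
    · exact Or.inl h
    · exact Or.inr (Or.inl h)
    · exact Or.inr (Or.inr ⟨n, h⟩)
  · intro J Q R _ _ C D c0 l
    have hp : D.Cm (aeS l) • D.X c0 l [] = pt (aeS l : St Q R).ty (D.ec c0 l) := by
      simp only [Data.X, List.map_nil, List.prod_nil, one_smul, Data.pe, smul_inv_smul, ae_ty]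
    rw [Data.ze, hp, h1.coord_pt]
  · intro J Q R _ _ _ C D c0 l τ j w hw hτ
    have hw' : OkW C w := fun x hx => hw x (by simp [hx])
    obtain ⟨c1, c2, c3⟩ := cl D h1 h2 h3 c0 l w hw' (srcS C l τ)
    exact (ze_trav D h1 h2 c0 l τ j w hτ c1 c2).2
  · intro J Q R _ _ _ C D c0 l τ w hw hτ
    have hw' : OkW C w := fun x hx => hw x (by simp [hx])
    exact (ze_gate D h1 h2 c0 l τ w hτ (cl D h1 h2 h3 c0 l w hw' _)).2.1

end Pool.Agent.Lib.MP_571595_lc.MORT.H21
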