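import Pool.Agent.Lib.MP_571595_lc.MORT.Base

/-!
# Valuation tools
-/

set_option autoImplicit false

namespace Pool.Agent.Lib.MP_571595_lc.MORT.H21

variable {J Q R : Type} [Fintype J] {C : CM J Q R} (D : Data C)

omit [Fintype J] in
theorem toZ_zero : toZ (0 : J → ℕ) = 0 := by
  funext j; simp [toZ]

omit [Fintype J] in
theorem toZ_add (n m : J → ℕ) : toZ (n + m) = toZ n + toZ m := by
  funext j; simp [toZ]

omit [Fintype J] in
theorem toZ_single [DecidableEq J] (j : J) : toZ (Pi.single j 1 : J → ℕ) = Pi.single j 1 := by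
  funext i
  by_cases h : i = j
  · subst h; simp [toZ]
  · simp [toZ, h]

theorem rho_zero : D.rho 0 = 1 := by
  have h := D.rho_add 0 0
  rw [add_zero] at h
  exact (mul_eq_left.1 h.symm)

theorem rho_ne (z : J → ℤ) : (D.rho z : ℚ) ≠ 0 := (D.rho z).ne_zero

theorem v_mul (i : J ⊕ J) {x y : ℚ} (hx : x ≠ 0) (hy : y ≠ 0) :
    D.v i (x * y) = D.v i x + D.v i y := by
  have : Fact (D.pr i).Prime := ⟨D.prime i⟩
  exact padicValRat.mul hx hy

theorem v_inv (i : J ⊕ J) (x : ℚ) : D.v i x⁻¹ = -D.v i x := by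
  have : Fact (D.pr i).Prime := ⟨D.prime i⟩
  exact padicValRat.inv x

theorem v_zpow (i : J ⊕ J) (x : ℚ) (k : ℤ) : D.v i (x ^ k) = k * D.v i x := by
  have : Fact (D.pr i).Prime := ⟨D.prime i⟩
  exact padicValRat.zpow x

theorem v_neg (i : J ⊕ J) (x : ℚ) : D.v i (-x) = D.v i x := padicValRat.neg x

theorem v_one (i : J ⊕ J) : D.v i 1 = 0 := padicValRat.one

theorem v_add (i : J ⊕ J) {x y : ℚ} (hx : x ≠ 0) (hy : y ≠ 0) (h : D.v i x ≠ D.v i y) :
    x + y ≠ 0 ∧ D.v i (x + y) = min (D.v i x) (D.v i y) := by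
  have : Fact (D.pr i).Prime := ⟨D.prime i⟩
  have h0 : x + y ≠ 0 := by
    intro h1
    apply h
    have : x = -y := by linarith
    rw [this, v_neg]
  exact ⟨h0, padicValRat.add_eq_min h0 hx hy h⟩

/-- the valuations of `rho` are multiples of `M` -/
theorem v_rho_dvd (i : J ⊕ J) (z : J → ℤ) : ∃ k, D.v i (D.rho z : ℚ) = D.M * k := by
  rcases i with i | i
  · exact ⟨_, D.rho_inl z i⟩
  · exact ⟨-ell z i, by rw [Data.v, D.rho_inr z i]; ring⟩

theorem M_pos (hne : Nonempty (St Q R)) : 0 < D.M := by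
  obtain ⟨a⟩ := hne
  have h1 := D.es_lt_ep
  have h2 := D.ep_lt_ek a
  have h3 := D.ek_lt a
  linarith

theorem M_pos' : 0 < D.M := M_pos D ⟨St.AU⟩

theorem ell_toZ_pos {n : J → ℕ} (hn : n ≠ 0) (i : J) : 0 < ell (toZ n) i := by
  obtain ⟨j, hj⟩ := Function.ne_iff.1 hn
  have h1 : (0 : ℤ) < ∑ j, toZ n j := by
    refine Finset.sum_pos' (fun j _ => ?_) ⟨j, Finset.mem_univ j, ?_⟩
    · simp [toZ]
    · simp only [toZ, Pi.zero_apply] at hj ⊢
      omega
  have h2 : 0 ≤ toZ n i := by simp [toZ]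
  unfold ell
  linarith

theorem v_rho_ne_zero {n : J → ℕ} (hn : n ≠ 0) (i : J ⊕ J) : D.v i (D.rho (toZ n) : ℚ) ≠ 0 := by
  rcases i with i | i
  · rw [Data.v, D.rho_inl]
    exact (mul_pos (M_pos' D) (ell_toZ_pos hn i)).ne'
  · rw [Data.v, D.rho_inr]
    have := mul_pos (M_pos' D) (ell_toZ_pos hn i)
    linarith

/-- numbers in a window of length `M` are different modulo `M` -/
theorem ne_mod {M e0 e1 e2 : ℤ} (h1 : e0 ≤ e1) (h1' : e1 < e0 + M) (h2 : e0 ≤ e2)
    (h2' : e2 < e0 + M) (h : e1 ≠ e2) (k1 k2 : ℤ) : -e1 + M * k1 ≠ -e2 + M * k2 := by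
  intro h3
  have hM : 0 < M := by linarith
  have h4 : e1 - e2 = M * (k1 - k2) := by linarith
  have h5 : k1 - k2 = 0 := by
    by_contra h6
    rcases lt_or_gt_of_ne h6 with h7 | h7
    · have h8 : k1 - k2 ≤ -1 := by omega
      have : M * (k1 - k2) ≤ M * (-1) := mul_le_mul_of_nonneg_left h8 hM.le
      linarith
    · have h8 : 1 ≤ k1 - k2 := by omega
      have : M * 1 ≤ M * (k1 - k2) := mul_le_mul_of_nonneg_left h8 hM.le
      linarith
  rw [h5, mul_zero] at h4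
  exact h (by linarith)

theorem eo_cases (l : Bool) (T : Ty) :
    (D.eo l T = D.es ∧ D.eo l T.op = D.ep) ∨ (D.eo l T = D.ep ∧ D.eo l T.op = D.es) := by
  cases l <;> cases T <;> simp [Data.eo, Ty.op]

theorem eo_pos (l : Bool) (T : Ty) : 0 < D.eo l T := by
  have h1 := D.es_pos
  have h2 := D.es_lt_ep
  rcases eo_cases D l T with ⟨h, _⟩ | ⟨h, _⟩ <;> rw [h] <;> linarith

theorem eo_ge (l : Bool) (T : Ty) : D.es ≤ D.eo l T := by
  have h2 := D.es_lt_ep
  rcases eo_cases D l T with ⟨h, _⟩ | ⟨h, _⟩ <;> rw [h]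
  exact h2.le

theorem eo_lt (l : Bool) (T : Ty) : D.eo l T < D.es + D.M := by
  have h1 := D.ep_lt_ek .AU
  have h2 := D.es_lt_ep
  have h3 := D.ek_lt .AU
  rcases eo_cases D l T with ⟨h, _⟩ | ⟨h, _⟩ <;> rw [h] <;> linarith

theorem eo_ne_ek (l : Bool) (T : Ty) (a : St Q R) : D.eo l T ≠ D.ek a := by
  have h1 := D.ep_lt_ek a
  have h2 := D.es_lt_ep
  rcases eo_cases D l T with ⟨h, _⟩ | ⟨h, _⟩ <;> rw [h] <;> exact (by linarith : _ < _).ne

theorem eo_ne_op (l : Bool) (T : Ty) : D.eo l T.op ≠ D.eo l T := by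
  have h2 := D.es_lt_ep
  rcases eo_cases D l T with ⟨h, h'⟩ | ⟨h, h'⟩ <;> rw [h, h']
  · exact h2.ne'
  · exact h2.ne

theorem ek_ge (a : St Q R) : D.es ≤ D.ek a := by
  have h1 := D.ep_lt_ek a
  have h2 := D.es_lt_ep
  linarith

theorem out_ne (l : Bool) (T : Ty) : D.out l T ≠ 0 := by
  cases l <;> cases T <;> simp [Data.out, D.s_ne, D.p_ne]

theorem v_out (l : Bool) (T : Ty) (i : J ⊕ J) : D.v i (D.out l T) = -D.eo l T := by
  cases l <;> cases T <;> simp only [Data.out, Data.eo]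
  · exact D.v_p i
  · exact D.v_s i
  · exact D.v_s i
  · exact D.v_p i

omit [Fintype J] in
theorem sgnS_sq (l : Bool) (τ : Tr J Q R) : sgnS C l τ = 1 ∨ sgnS C l τ = -1 := by
  unfold sgnS
  split_ifs
  · exact Or.inl rfl
  · exact Or.inr rfl

theorem sgn_out_ne (l : Bool) (T : Ty) (τ : Tr J Q R) : sgnS C l τ * D.out l T ≠ 0 := by
  have h := out_ne D l T
  rcases sgnS_sq (C := C) l τ with h1 | h1 <;> rw [h1] <;> simpa using h

theorem v_sgn_out (l : Bool) (T : Ty) (τ : Tr J Q R) (i : J ⊕ J) :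
    D.v i (sgnS C l τ * D.out l T) = -D.eo l T := by
  rcases sgnS_sq (C := C) l τ with h1 | h1 <;> rw [h1]
  · rw [one_mul, v_out]
  · rw [neg_one_mul, v_neg, v_out]

theorem ec_ne (c0 : J → ℕ) (l : Bool) : D.ec c0 l ≠ 0 := by
  cases l
  · simpa [Data.ec] using D.s_ne
  · simp only [Data.ec, ne_eq, neg_eq_zero, mul_eq_zero, not_or]
    exact ⟨D.p_ne, rho_ne D _⟩

omit [Fintype J] in
theorem ae_ty (l : Bool) : (aeS l : St Q R).ty = .L := by
  cases l <;> rfl

/-- valuation of the end coordinate -/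
theorem v_ec (c0 : J → ℕ) (l : Bool) : ∃ n : J → ℕ, ∀ i,
    D.v i (D.ec c0 l) = -D.eo l .L + epsS l * D.v i (D.rho (toZ n) : ℚ) := by
  cases l
  · refine ⟨0, fun i => ?_⟩
    rw [toZ_zero, rho_zero]
    simp only [Data.ec, Data.eo, epsS, Units.val_one, v_one, mul_zero, add_zero, v_neg]
    exact D.v_s i
  · refine ⟨c0, fun i => ?_⟩
    simp only [Data.ec, Data.eo, epsS, one_mul, v_neg]
    rw [v_mul D i D.p_ne (rho_ne D _)]
    congr 1
    exact D.v_p i

/-- the condition on gates -/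
theorem gate_lt (l : Bool) (τ : Tr J Q R) (h : τ.trav = none) (i : J ⊕ J) :
    D.v i (D.rho (τ.z C) : ℚ) < 2 * D.eo l (srcS C l τ).ty := by
  have h0 : ∀ T, D.v i (D.rho (0 : J → ℤ) : ℚ) < 2 * D.eo l T := by
    intro T
    rw [rho_zero, Units.val_one, v_one]
    have := eo_pos D l T
    linarith
  cases τ with
  | gL r =>
    have h1 := D.del_lt r i
    cases l <;> exact h1
  | gU r => exact h0 _
  | g0 => exact h0 _
  | aG => exact h0 _
  | aH => exact h0 _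
  | tU q j => simp [Tr.trav] at h
  | tL r j => simp [Tr.trav] at h
  | aU j => simp [Tr.trav] at h
  | aL j => simp [Tr.trav] at h

end Pool.Agent.Lib.MP_571595_lc.MORT.H21
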